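import Pool.Agent.Helper2.SV.GoalsC
import Pool.Agent.Helper2.SV.GoalsP

/-!
# Packet SV-I34
-/

set_option autoImplicit false

namespace Pool.Agent.Helper70.SV

open Pool.Agent.Helper2.SV

variable {V : Type} {G : SimpleGraph V} {u : V} {d : Fin 5 → V}

lemma step (hF : WF G u d) {i : Fin 5} (h0 : (EE G u d i).Nonempty)
    (h1 : (EE G u d (i + 1)).Nonempty) {y : V} (hy : y ∈ V0 G u d)
    (h : (∃ g ∈ EE G u d i, G.Adj y g) ∨ ∃ g ∈ EE G u d (i + 1), G.Adj y g) :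
    (∀ g ∈ EE G u d i, G.Adj y g) ∧ ∀ g ∈ EE G u d (i + 1), G.Adj y g := by
  obtain ⟨g0, hg0⟩ := h0
  obtain ⟨g1, hg1⟩ := h1
  have h4 := hF.e4 i (Or.inl ⟨g0, hg0⟩) ⟨g0, hg0.1⟩ ⟨g1, hg1.1⟩
  have key : ∃ g ∈ V2 G u d i ∪ V2 G u d (i + 1), G.Adj y g := by
    rcases h with ⟨g, hg, hyg⟩ | ⟨g, hg, hyg⟩
    · exact ⟨g, Or.inl hg.1, hyg⟩
    · exact ⟨g, Or.inr hg.1, hyg⟩
  obtain ⟨g, hg, hyg⟩ := key
  have h5 := h4.2.2 y hy g hg hyg
  exact ⟨fun g' hg' => h5 g' (Or.inl hg'.1), fun g' hg' => h5 g' (Or.inr hg'.1)⟩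

lemma sub2 (hF : WF G u d) {i : Fin 5} (h0 : (EE G u d i).Nonempty)
    (h1 : (EE G u d (i + 1)).Nonempty) :
    V2 G u d i ⊆ EE G u d i ∧ V2 G u d (i + 1) ⊆ EE G u d (i + 1) := by
  obtain ⟨g0, hg0⟩ := h0
  obtain ⟨g1, hg1⟩ := h1
  have h4 := hF.e4 i (Or.inl ⟨g0, hg0⟩) ⟨g0, hg0.1⟩ ⟨g1, hg1.1⟩
  exact ⟨h4.1, h4.2.1⟩

lemma next_empty (hF : WF G u d) {i : Fin 5} (h0 : (EE G u d i).Nonempty)
    (h1 : ¬ (EE G u d (i + 1)).Nonempty) {v : V} (hv : v ∈ V2 G u d (i + 1)) : False := by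
  obtain ⟨g0, hg0⟩ := h0
  have h4 := hF.e4 i (Or.inl ⟨g0, hg0⟩) ⟨g0, hg0.1⟩ ⟨v, hv⟩
  exact h1 ⟨v, h4.2.1 hv⟩

lemma prev_empty (hF : WF G u d) {i : Fin 5} (h0 : ¬ (EE G u d i).Nonempty)
    (h1 : (EE G u d (i + 1)).Nonempty) {v : V} (hv : v ∈ V2 G u d i) : False := by
  obtain ⟨g1, hg1⟩ := h1
  have h4 := hF.e4 i (Or.inr ⟨g1, hg1⟩) ⟨v, hv⟩ ⟨g1, hg1.1⟩
  exact h0 ⟨v, h4.1 hv⟩

/-- the final argument: `M(u)` is covered by two cliques -/
lemma cover [Finite V] (hCOB : G_COB) {w : V → ℕ} (hMF : MF G w) (hF : WF G u d) (r : Fin 5)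
    (hV0 : Clq G (V0 G u d)) (hC : ∀ y ∈ V0 G u d, ∀ i, ∀ g ∈ EE G u d i, G.Adj y g)
    (h : ∀ v ∈ Mn G u, v ∈ V0 G u d ∨ v ∈ EE G u d 0 ∨ v ∈ EE G u d 1 ∨ G.Adj v (d r)) :
    False := by
  have hd : ∀ x, x ∈ EE G u d 0 ∨ x ∈ EE G u d 1 → x ∈ Mn G u ∧ G.Adj x (d 1) := by
    rintro x (hx | hx)
    · exact ⟨hx.1.1, (hx.1.2 1).2 (Or.inr rfl)⟩
    · exact ⟨hx.1.1, (hx.1.2 1).2 (Or.inl rfl)⟩
  have hE : ∀ x, x ∈ EE G u d 0 ∨ x ∈ EE G u d 1 → ∀ y ∈ V0 G u d, G.Adj y x := by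
    rintro x (hx | hx) y hy
    · exact hC y hy 0 x hx
    · exact hC y hy 1 x hx
  have c1 : Clq G {x | x ∈ V0 G u d ∨ x ∈ EE G u d 0 ∨ x ∈ EE G u d 1} := by
    rintro x (hx | hx) y (hy | hy) hxy
    · exact hV0 x hx y hy hxy
    · exact hE y hy x hx
    · exact (hE x hx y hy).symm
    · exact hF.common x y 1 (hd x hx).1 (hd y hy).1 hxy (hd x hx).2 (hd y hy).2
  have c2 : Clq G {x | x ∈ Mn G u ∧ G.Adj x (d r)} := by
    intro x hx y hy hxy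
    exact hF.common x y r hx.1 hy.1 hxy hx.2 hy.2
  refine hMF.nperf u ((hCOB V G _ _ c1 c2).mono ?_)
  intro v hv
  rcases h v hv with h1 | h1 | h1 | h1
  · exact Or.inl (Or.inl h1)
  · exact Or.inl (Or.inr (Or.inl h1))
  · exact Or.inl (Or.inr (Or.inr h1))
  · exact Or.inr ⟨hv, h1⟩

/-- a vertex of `M(u)` with three consecutive rim neighbours is adjacent to `d 0, …, d 3` -/
lemma three4 (hF : WF G u d) (h0 : (EE G u d 0).Nonempty) (h1 : (EE G u d 1).Nonempty)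
    (h2 : (EE G u d 2).Nonempty) {m : V} (hm : m ∈ Mn G u) (h3 : Three G d m) :
    G.Adj m (d 0) ∧ G.Adj m (d 1) ∧ G.Adj m (d 2) ∧ G.Adj m (d 3) := by
  have e0 := hF.e3 0 h0 m hm h3
  have e1 := hF.e3 1 h1 m hm h3
  have e2 := hF.e3 2 h2 m hm h3
  have s01 : (0 : Fin 5) + 1 = 1 := rfl
  have s12 : (1 : Fin 5) + 1 = 2 := rfl
  have s23 : (2 : Fin 5) + 1 = 3 := rfl
  rw [s01] at e0
  rw [s12] at e1
  rw [s23] at e2
  have key : G.Adj m (d 0) ∨ G.Adj m (d 1) ∨ G.Adj m (d 2) ∨ G.Adj m (d 3) := by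
    obtain ⟨j, hj0, hj1, hj2⟩ := h3
    fin_cases j
    · exact Or.inl hj0
    · exact Or.inr (Or.inl hj0)
    · exact Or.inr (Or.inr (Or.inl hj0))
    · exact Or.inr (Or.inr (Or.inr hj0))
    · exact Or.inl hj1
  rcases key with h | h | h | h
  · have a := e0 (Or.inl h)
    have b := e1 (Or.inl a.2)
    have c := e2 (Or.inl b.2)
    exact ⟨h, a.2, b.2, c.2⟩
  · have a := e0 (Or.inr h)
    have b := e1 (Or.inl h)
    have c := e2 (Or.inl b.2)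
    exact ⟨a.1, h, b.2, c.2⟩
  · have b := e1 (Or.inr h)
    have a := e0 (Or.inr b.1)
    have c := e2 (Or.inl h)
    exact ⟨a.1, b.1, h, c.2⟩
  · have c := e2 (Or.inr h)
    have b := e1 (Or.inr c.1)
    have a := e0 (Or.inr b.1)
    exact ⟨a.1, b.1, c.1, h⟩

theorem goalI34 (hCH : G_CH) (hCOB : G_COB) : G_I34 := by
  intro V _ G w u d hcf hMF hW hF hV0
  have s01 : (0 : Fin 5) + 1 = 1 := rfl
  have s12 : (1 : Fin 5) + 1 = 2 := rfl
  have s23 : (2 : Fin 5) + 1 = 3 := rfl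
  have s34 : (3 : Fin 5) + 1 = 4 := rfl
  have s40 : (4 : Fin 5) + 1 = 0 := rfl
  have hne : ∀ {i : Fin 5} {y : V}, (EE G u d i).Nonempty → (∀ g ∈ EE G u d i, G.Adj y g) →
      ∃ g ∈ EE G u d i, G.Adj y g := by
    intro i y hi h
    obtain ⟨g, hg⟩ := hi
    exact ⟨g, hg, h g hg⟩
  refine ⟨?_, ?_⟩
  · intro h
    have h0 : (EE G u d 0).Nonempty := (h 0).2 (Or.inl rfl)
    have h1 : (EE G u d 1).Nonempty := (h 1).2 (Or.inr (Or.inl rfl))
    have h2 : (EE G u d 2).Nonempty := (h 2).2 (Or.inr (Or.inr rfl))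
    have h3 : ¬ (EE G u d 3).Nonempty := by
      intro h'
      rcases (h 3).1 h' with h'' | h'' | h'' <;> exact absurd h'' (by decide)
    have h4 : ¬ (EE G u d 4).Nonempty := by
      intro h'
      rcases (h 4).1 h' with h'' | h'' | h'' <;> exact absurd h'' (by decide)
    have st0 : ∀ {y : V}, y ∈ V0 G u d → ((∃ g ∈ EE G u d 0, G.Adj y g) ∨
        ∃ g ∈ EE G u d 1, G.Adj y g) →
        (∀ g ∈ EE G u d 0, G.Adj y g) ∧ ∀ g ∈ EE G u d 1, G.Adj y g := by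
      intro y hy hh
      exact step hF h0 (i := 0) h1 hy hh
    have st1 : ∀ {y : V}, y ∈ V0 G u d → ((∃ g ∈ EE G u d 1, G.Adj y g) ∨
        ∃ g ∈ EE G u d 2, G.Adj y g) →
        (∀ g ∈ EE G u d 1, G.Adj y g) ∧ ∀ g ∈ EE G u d 2, G.Adj y g := by
      intro y hy hh
      exact step hF h1 (i := 1) h2 hy hh
    have hcl := (hCH V G w u d hcf hMF hW hF hV0).2 (by
      intro y hy i g hg hyg j g' hg'
      have a1 : ∀ g ∈ EE G u d 1, G.Adj y g := by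
        rcases (h i).1 ⟨g, hg⟩ with hi | hi | hi
        · subst hi; exact (st0 hy (Or.inl ⟨g, hg, hyg⟩)).2
        · subst hi; exact (st0 hy (Or.inr ⟨g, hg, hyg⟩)).2
        · subst hi; exact (st1 hy (Or.inr ⟨g, hg, hyg⟩)).1
      have a0 := (st0 hy (Or.inr (hne h1 a1))).1
      have a2 := (st1 hy (Or.inl (hne h1 a1))).2
      rcases (h j).1 ⟨g', hg'⟩ with hj | hj | hj
      · subst hj; exact a0 g' hg'
      · subst hj; exact a1 g' hg'
      · subst hj; exact a2 g' hg')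
    refine cover hCOB hMF hF 2 hcl.2.1 hcl.2.2 ?_
    intro v hv
    rcases hF.types v hv with t | ⟨i, t⟩ | t
    · exact Or.inl t
    · fin_cases i
      · exact Or.inr (Or.inl ((sub2 hF h0 (i := 0) h1).1 t))
      · exact Or.inr (Or.inr (Or.inl ((sub2 hF h0 (i := 0) h1).2 t)))
      · exact Or.inr (Or.inr (Or.inr ((t.2 2).2 (Or.inl rfl))))
      · exact absurd t (fun t => next_empty hF h2 (i := 2) h3 t)
      · exact absurd t (fun t => prev_empty hF h4 (i := 4) h0 t)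
    · exact Or.inr (Or.inr (Or.inr (three4 hF h0 h1 h2 hv t).2.2.1))
  · intro h
    have h0 : (EE G u d 0).Nonempty := (h 0).2 (Or.inl rfl)
    have h1 : (EE G u d 1).Nonempty := (h 1).2 (Or.inr (Or.inl rfl))
    have h2 : (EE G u d 2).Nonempty := (h 2).2 (Or.inr (Or.inr (Or.inl rfl)))
    have h3 : (EE G u d 3).Nonempty := (h 3).2 (Or.inr (Or.inr (Or.inr rfl)))
    have h4 : ¬ (EE G u d 4).Nonempty := by
      intro h'
      rcases (h 4).1 h' with h'' | h'' | h'' | h'' <;> exact absurd h'' (by decide)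
    have st0 : ∀ {y : V}, y ∈ V0 G u d → ((∃ g ∈ EE G u d 0, G.Adj y g) ∨
        ∃ g ∈ EE G u d 1, G.Adj y g) →
        (∀ g ∈ EE G u d 0, G.Adj y g) ∧ ∀ g ∈ EE G u d 1, G.Adj y g := by
      intro y hy hh
      exact step hF h0 (i := 0) h1 hy hh
    have st1 : ∀ {y : V}, y ∈ V0 G u d → ((∃ g ∈ EE G u d 1, G.Adj y g) ∨
        ∃ g ∈ EE G u d 2, G.Adj y g) →
        (∀ g ∈ EE G u d 1, G.Adj y g) ∧ ∀ g ∈ EE G u d 2, G.Adj y g := by
      intro y hy hh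
      exact step hF h1 (i := 1) h2 hy hh
    have st2 : ∀ {y : V}, y ∈ V0 G u d → ((∃ g ∈ EE G u d 2, G.Adj y g) ∨
        ∃ g ∈ EE G u d 3, G.Adj y g) →
        (∀ g ∈ EE G u d 2, G.Adj y g) ∧ ∀ g ∈ EE G u d 3, G.Adj y g := by
      intro y hy hh
      exact step hF h2 (i := 2) h3 hy hh
    have hcl := (hCH V G w u d hcf hMF hW hF hV0).2 (by
      intro y hy i g hg hyg j g' hg'
      have a1 : ∀ g ∈ EE G u d 1, G.Adj y g := by
        rcases (h i).1 ⟨g, hg⟩ with hi | hi | hi | hi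
        · subst hi; exact (st0 hy (Or.inl ⟨g, hg, hyg⟩)).2
        · subst hi; exact (st0 hy (Or.inr ⟨g, hg, hyg⟩)).2
        · subst hi; exact (st1 hy (Or.inr ⟨g, hg, hyg⟩)).1
        · subst hi
          have b := (st2 hy (Or.inr ⟨g, hg, hyg⟩)).1
          exact (st1 hy (Or.inr (hne h2 b))).1
      have a0 := (st0 hy (Or.inr (hne h1 a1))).1
      have a2 := (st1 hy (Or.inl (hne h1 a1))).2
      have a3 := (st2 hy (Or.inl (hne h2 a2))).2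
      rcases (h j).1 ⟨g', hg'⟩ with hj | hj | hj | hj
      · subst hj; exact a0 g' hg'
      · subst hj; exact a1 g' hg'
      · subst hj; exact a2 g' hg'
      · subst hj; exact a3 g' hg')
    refine cover hCOB hMF hF 3 hcl.2.1 hcl.2.2 ?_
    intro v hv
    rcases hF.types v hv with t | ⟨i, t⟩ | t
    · exact Or.inl t
    · fin_cases i
      · exact Or.inr (Or.inl ((sub2 hF h0 (i := 0) h1).1 t))
      · exact Or.inr (Or.inr (Or.inl ((sub2 hF h0 (i := 0) h1).2 t)))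
      · exact Or.inr (Or.inr (Or.inr ((t.2 3).2 (Or.inr rfl))))
      · exact Or.inr (Or.inr (Or.inr ((t.2 3).2 (Or.inl rfl))))
      · exact absurd t (fun t => prev_empty hF h4 (i := 4) h0 t)
    · exact Or.inr (Or.inr (Or.inr (three4 hF h0 h1 h2 hv t).2.2.2))

end Pool.Agent.Helper70.SV
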